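import Pool.Agent.K3h78.PN.Stm

set_option autoImplicit false

/-!
# Finite Galois extensions generated by an algebraic number (brick EXT)
-/

namespace Pool.Agent.K3h98.PN

open Polynomial Pool.Agent.K3h78.PN

theorem gen (F L Ω : Type) [Field F] [CharZero F] [Field L] [Field Ω] [Algebra F L]
    [Algebra F Ω] [Algebra L Ω] [IsScalarTower F L Ω] [IsAlgClosed Ω] {v : Ω}
    (halg : IsAlgebraic F v) :
    ∃ (E : IntermediateField L Ω) (θ : E), FiniteDimensional L E ∧ IsGalois L E ∧ v ∈ E ∧
      IsAlgebraic F (θ : Ω) ∧ IntermediateField.adjoin L {θ} = ⊤ := by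
  classical
  have hint : IsIntegral F v := halg.isIntegral
  obtain ⟨f, hf⟩ : ∃ f, f = minpoly F v := ⟨_, rfl⟩
  have hf0 : f ≠ 0 := by rw [hf]; exact minpoly.ne_zero hint
  have hfsep : f.Separable := by rw [hf]; exact (minpoly.irreducible hint).separable
  have hfv : aeval v f = 0 := by rw [hf]; exact minpoly.aeval F v
  obtain ⟨g, hg⟩ : ∃ g, g = f.map (algebraMap F L) := ⟨_, rfl⟩
  have hg0 : g ≠ 0 := by
    rw [hg]
    exact (Polynomial.map_ne_zero_iff (algebraMap F L).injective).2 hf0
  have hgsep : g.Separable := by rw [hg]; exact hfsep.map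
  have hroot : ∀ x : Ω, x ∈ g.rootSet Ω ↔ aeval x f = 0 := by
    intro x
    rw [mem_rootSet, hg, aeval_map_algebraMap]
    exact ⟨fun h => h.2, fun h => ⟨by rw [← hg]; exact hg0, h⟩⟩
  have hroot' : ∀ x : Ω, x ∈ f.rootSet Ω ↔ aeval x f = 0 := by
    intro x
    rw [mem_rootSet]
    exact ⟨fun h => h.2, fun h => ⟨hf0, h⟩⟩
  have hsp : g.IsSplittingField L (IntermediateField.adjoin L (g.rootSet Ω)) :=
    IntermediateField.adjoin_rootSet_isSplittingField (IsAlgClosed.splits _)
  have hspN : f.IsSplittingField F (IntermediateField.adjoin F (f.rootSet Ω)) :=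
    IntermediateField.adjoin_rootSet_isSplittingField (IsAlgClosed.splits _)
  have hfdN : FiniteDimensional F (IntermediateField.adjoin F (f.rootSet Ω)) :=
    Polynomial.IsSplittingField.finiteDimensional _ f
  obtain ⟨α, hα⟩ := Field.exists_primitive_element F (IntermediateField.adjoin F (f.rootSet Ω))
  have hfd : FiniteDimensional L (IntermediateField.adjoin L (g.rootSet Ω)) :=
    Polynomial.IsSplittingField.finiteDimensional _ g
  have hgal : IsGalois L (IntermediateField.adjoin L (g.rootSet Ω)) :=
    IsGalois.of_separable_splitting_field hgsep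
  have hle : IntermediateField.adjoin F (f.rootSet Ω) ≤
      (IntermediateField.adjoin L (g.rootSet Ω)).restrictScalars F := by
    rw [IntermediateField.adjoin_le_iff]
    intro x hx
    exact IntermediateField.subset_adjoin L _ ((hroot x).2 ((hroot' x).1 hx))
  have hαE : (α : Ω) ∈ IntermediateField.adjoin L (g.rootSet Ω) := hle α.2
  refine ⟨IntermediateField.adjoin L (g.rootSet Ω), ⟨α, hαE⟩, hfd, hgal,
    IntermediateField.subset_adjoin L _ ((hroot v).2 hfv), ?_, ?_⟩
  · have h1 : IsAlgebraic F α := Algebra.IsAlgebraic.isAlgebraic α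
    exact h1.algebraMap
  · apply IntermediateField.lift_injective
    rw [IntermediateField.lift_adjoin_simple, IntermediateField.lift_top]
    refine le_antisymm ?_ ?_
    · rw [IntermediateField.adjoin_simple_le_iff]
      exact hαE
    · rw [IntermediateField.adjoin_le_iff]
      intro x hx
      have hxN : x ∈ IntermediateField.adjoin F (f.rootSet Ω) :=
        IntermediateField.subset_adjoin F _ ((hroot' x).2 ((hroot x).1 hx))
      have h1 : (⟨x, hxN⟩ : IntermediateField.adjoin F (f.rootSet Ω)) ∈
          IntermediateField.adjoin F {α} := by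
        rw [hα]
        exact IntermediateField.mem_top
      have h2 : x ∈ (IntermediateField.adjoin F {α}).map
          (IntermediateField.adjoin F (f.rootSet Ω)).val :=
        ⟨⟨x, hxN⟩, h1, rfl⟩
      rw [IntermediateField.adjoin_map, Set.image_singleton] at h2
      have h3 : IntermediateField.adjoin F {(IntermediateField.adjoin F (f.rootSet Ω)).val α} ≤
          (IntermediateField.adjoin L {(α : Ω)}).restrictScalars F := by
        rw [IntermediateField.adjoin_simple_le_iff]
        exact IntermediateField.mem_adjoin_simple_self L _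
      exact h3 h2

theorem t_EXT : Pool.Agent.K3h78.PN.S_EXT := by
  intro L Ω _ _ _ _ _ _ v hv
  classical
  have hac : IsAlgClosed Ω := IsAlgClosure.isAlgClosed L
  obtain ⟨q, hq0, hq⟩ := hv
  have hcast : Rat.castHom Ω = algebraMap ℚ Ω := RingHom.ext_rat _ _
  rw [hcast] at hq
  obtain ⟨E, θ, h1, h2, h3, ⟨p, hp0, hp⟩, h5⟩ := gen ℚ L Ω (v := v) ⟨q, hq0, hq⟩
  refine ⟨E, θ, h1, h2, h3, ⟨p, hp0, ?_⟩, h5⟩
  have h6 : algebraMap E Ω (p.eval₂ (Rat.castHom E) θ) = 0 := by
    rw [hom_eval₂]
    have h7 : (algebraMap E Ω).comp (Rat.castHom E) = algebraMap ℚ Ω := RingHom.ext_rat _ _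
    rw [h7]
    exact hp
  exact (map_eq_zero _).1 h6

end Pool.Agent.K3h98.PN
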